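import Pool.Agent.H.MP_c4bd3e_lc.B

set_option autoImplicit false
open Cardinal MeasureTheory

namespace Pool.Agent.Results.MP_c4bd3e_lc.Null

theorem result
    (h : ∀ S : Set (Set ℝ), #S < continuum → (∀ s ∈ S, IsNowhereDense s) → ⋃₀ S ≠ Set.univ) :
    ∃ K : Subfield ℝ, √2 ∉ K ∧ (∀ K' : Subfield ℝ, K < K' → √2 ∈ K') ∧
      (∀ z ∈ K, IsAlgebraic ℚ z ∨ Liouville z) ∧ volume (K : Set ℝ) = 0 ∧
      NullMeasurableSet (K : Set ℝ) volume := by
  obtain ⟨K, a, b, c⟩ := Pool.Agent.H.MP_c4bd3e_lc.main h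
  have d : volume (K : Set ℝ) = 0 := measure_mono_null (t := {z | IsAlgebraic ℚ z} ∪ {z | Liouville z})
    c (measure_union_null ((Algebraic.countable ℚ ℝ).measure_zero _) volume_setOfPred_liouville)
  exact ⟨K, a, b, c, d, NullMeasurableSet.of_null d⟩

end Pool.Agent.Results.MP_c4bd3e_lc.Null
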